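import Pool.Agent.helper86.NF.SpecC

/-! nf: CZ3: class one, `5/7 ≤ σ ≤ 3/4`. -/

set_option autoImplicit false

open Complex MeasureTheory

namespace Pool.Agent.NF

open Pool.Agent.helper84.DM Pool.Agent.helper78.ED Pool.Agent.DH Pool.Agent.ZD

/-- the case of one power `M = N^k`, `T^(39/50) ≤ M ≤ T^β` -/
theorem CZ3_pow (h3 : NMV_stmt) (h6 : NLW_stmt) (T M σ w β ε C₂ C₃ R : ℝ)
    (hT : 1 ≤ T) (hσ1 : 5 / 7 ≤ σ) (hσ2 : σ ≤ 3 / 4) (hw : w = 7 * (1 - σ) / (1 + 3 * σ))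
    (hβ : β = 7 / (2 * (1 + 3 * σ))) (hM1 : T ^ (39 / 50 : ℝ) ≤ M) (hM2 : M ≤ T ^ β)
    (hC₂ : 0 < C₂) (hC₃ : 0 < C₃)
    (hV : R ≤ C₂ * T ^ ε * ((T + M) * M * M ^ (-(2 * σ))))
    (hL : M ≤ T ^ (12 / 13 : ℝ) → R ≤ C₃ * T ^ ε * (M ^ (2 : ℕ) * M ^ (-(2 * σ)) +
      (T ^ (1 / 2 : ℝ) * M ^ (3 : ℕ) + T ^ (6 / 7 : ℝ) * M ^ (18 / 7 : ℝ)
        + T * M ^ (2 : ℕ)) * M ^ (-(4 * σ)))) :
    R ≤ (2 * C₂ + 4 * C₃) * T ^ (w + ε) := by
  have hT0 : 0 < T := by linarith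
  have hM0 : 0 < M := lt_of_lt_of_le (Real.rpow_pos_of_pos hT0 _) hM1
  have hs : 0 < 1 + 3 * σ := by linarith
  have hTw : 0 < T ^ w := Real.rpow_pos_of_pos hT0 _
  have hTe : 0 < T ^ ε := Real.rpow_pos_of_pos hT0 _
  have hadd : T ^ (w + ε) = T ^ w * T ^ ε := Real.rpow_add hT0 _ _
  have hp : 0 < T ^ w * T ^ ε := mul_pos hTw hTe
  rcases le_total (T ^ (1 - w)) (M ^ (2 * σ - 1)) with hc | hc
  · have h1 := h3 T M σ w β hT hM0 (by linarith) (by linarith) hM2 (by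
      rw [hw, hβ]
      apply le_of_eq
      field_simp) hc
    have h2 : C₂ * T ^ ε * ((T + M) * M * M ^ (-(2 * σ))) ≤ C₂ * T ^ ε * (2 * T ^ w) :=
      mul_le_mul_of_nonneg_left h1 (by positivity)
    have h4 : C₂ * T ^ ε * (2 * T ^ w) = 2 * C₂ * (T ^ w * T ^ ε) := by ring
    have h5 : 0 ≤ 4 * C₃ * (T ^ w * T ^ ε) := by positivity
    rw [hadd]
    linarith
  · have h2σ : 0 < 2 * σ - 1 := by linarith
    have hexp : (1 - w) / (2 * σ - 1) ≤ 12 / 13 := by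
      rw [div_le_iff₀ h2σ, hw]
      have e1 : 1 - 7 * (1 - σ) / (1 + 3 * σ) = (10 * σ - 6) / (1 + 3 * σ) := by
        field_simp
        ring
      rw [e1, div_le_iff₀ hs]
      nlinarith [mul_nonneg (sub_nonneg.2 hσ2) (by linarith : (0 : ℝ) ≤ 44 - 36 * σ)]
    have hM12 : M ≤ T ^ (12 / 13 : ℝ) := by
      have e1 : M = (M ^ (2 * σ - 1)) ^ (1 / (2 * σ - 1)) := by
        rw [← Real.rpow_mul hM0.le, mul_one_div, div_self h2σ.ne', Real.rpow_one]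
      rw [e1]
      calc (M ^ (2 * σ - 1)) ^ (1 / (2 * σ - 1)) ≤ (T ^ (1 - w)) ^ (1 / (2 * σ - 1)) :=
            Real.rpow_le_rpow (Real.rpow_nonneg hM0.le _) hc (by positivity)
        _ = T ^ ((1 - w) / (2 * σ - 1)) := by
            rw [← Real.rpow_mul hT0.le]
            congr 1
            ring
        _ ≤ T ^ (12 / 13 : ℝ) := Real.rpow_le_rpow_of_exponent_le hT hexp
    have h1 := hL hM12
    have h2 := h6 T M σ hT hσ1 hσ2 hM1 (by rw [← hw]; exact hc)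
    rw [← hw] at h2
    have h4 : C₃ * T ^ ε * (M ^ (2 : ℕ) * M ^ (-(2 * σ)) +
      (T ^ (1 / 2 : ℝ) * M ^ (3 : ℕ) + T ^ (6 / 7 : ℝ) * M ^ (18 / 7 : ℝ)
        + T * M ^ (2 : ℕ)) * M ^ (-(4 * σ))) ≤ C₃ * T ^ ε * (4 * T ^ w) :=
      mul_le_mul_of_nonneg_left h2 (by positivity)
    have h5 : C₃ * T ^ ε * (4 * T ^ w) = 4 * C₃ * (T ^ w * T ^ ε) := by ring
    have h7 : 0 ≤ 2 * C₂ * (T ^ w * T ^ ε) := by positivity
    rw [hadd]
    linarith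

theorem CZ3 (h1 : NPW_stmt) (h2 : NVM_stmt) (h3 : NMV_stmt) (h4 : NAA_stmt) (h5 : NVW_stmt)
    (h6 : NLW_stmt) (h7 : LVZ_stmt) : CZ3_stmt := by
  intro ε hε
  obtain ⟨ϑ₀, hϑ₀, hZ⟩ := h7 ε hε
  refine ⟨ϑ₀, hϑ₀, ?_⟩
  intro ϑ hϑ hϑ' δ hδ hδ'
  obtain ⟨κ₁, hκ₁, hκ₁', hZ'⟩ := hZ ϑ hϑ hϑ'
  obtain ⟨K, hKd⟩ : ∃ K : ℕ, K = ⌊3 / δ⌋₊ := ⟨_, rfl⟩
  have h12 : (12 : ℝ) ≤ 3 / δ := by
    rw [le_div_iff₀ hδ]
    linarith
  have hK2 : 2 ≤ K := by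
    rw [hKd]
    exact Nat.le_floor (by push_cast; linarith)
  have hKle : ∀ k : ℕ, (k : ℝ) ≤ 3 / δ → k ≤ K := by
    intro k hk
    rw [hKd]
    exact Nat.le_floor hk
  obtain ⟨κ₂, hκ₂, hκ₂', hM⟩ := h2 ε K hε (by omega)
  obtain ⟨κ₃, hκ₃, hκ₃', hL⟩ := h5 ε K hε (by omega)
  obtain ⟨T₄, hP⟩ := h1 δ hδ hδ'
  refine ⟨min κ₁ (min κ₂ κ₃), lt_min hκ₁ (lt_min hκ₂ hκ₃), (min_le_left _ _).trans hκ₁', ?_⟩
  intro C₁ hC₁
  obtain ⟨CZ, TZ, hCZ, hZ''⟩ := hZ' C₁ hC₁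
  obtain ⟨C₂, T₂, hC₂, hM'⟩ := hM C₁ hC₁
  obtain ⟨C₃, T₃, hC₃, hL'⟩ := hL C₁ hC₁
  refine ⟨CZ + (2 * C₂ + 4 * C₃), max (max TZ T₂) (max (max T₃ T₄) ((2 : ℝ) ^ (13 * K))),
    by positivity, ?_⟩
  intro T hT σ hσ1 hσ2 N hN1 hN2 a ha W hW hlarge
  have hTZ : TZ ≤ T := ((le_max_left _ _).trans (le_max_left _ _)).trans hT
  have hT2 : T₂ ≤ T := ((le_max_right _ _).trans (le_max_left _ _)).trans hT
  have hT3 : T₃ ≤ T := (((le_max_left _ _).trans (le_max_left _ _)).trans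
    (le_max_right _ _)).trans hT
  have hT4 : T₄ ≤ T := (((le_max_right _ _).trans (le_max_left _ _)).trans
    (le_max_right _ _)).trans hT
  have hT5 : (2 : ℝ) ^ (13 * K) ≤ T := ((le_max_right _ _).trans (le_max_right _ _)).trans hT
  have hT1 : 1 ≤ T := (one_le_pow₀ (by norm_num)).trans hT5
  have hT0 : 0 < T := by linarith
  have hs : 0 < 1 + 3 * σ := by linarith
  obtain ⟨w, hw⟩ : ∃ w : ℝ, w = 7 * (1 - σ) / (1 + 3 * σ) := ⟨_, rfl⟩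
  obtain ⟨β, hβ⟩ : ∃ β : ℝ, β = 7 / (2 * (1 + 3 * σ)) := ⟨_, rfl⟩
  have hwA : wA σ = w := by
    rw [hw]
    exact h4.2.2.1 σ hσ1 (by linarith)
  have hβ1 : 14 / 13 ≤ β := by
    rw [hβ, le_div_iff₀ (by positivity)]
    linarith
  have hβ2 : β ≤ 49 / 44 := by
    rw [hβ, div_le_iff₀ (by positivity)]
    linarith
  have hNpos : (0 : ℝ) < N := lt_of_lt_of_le (by positivity) hN1
  have hN1' : 1 ≤ N := by exact_mod_cast hNpos
  have hNT : (N : ℝ) ≤ T := by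
    refine hN2.trans ?_
    calc T ^ (1 / 2 : ℝ) ≤ T ^ (1 : ℝ) := Real.rpow_le_rpow_of_exponent_le hT1 (by norm_num)
      _ = T := Real.rpow_one T
  have hco : ∀ κ' : ℝ, min κ₁ (min κ₂ κ₃) ≤ κ' → ∀ n ∈ Finset.Ioc N (2 * N),
      ‖a n‖ ≤ C₁ * T ^ κ' := by
    intro κ' hκ' n hn
    exact (ha n hn).trans (mul_le_mul_of_nonneg_left
      (Real.rpow_le_rpow_of_exponent_le hT1 hκ') hC₁.le)
  have hW0 : Sep 0 T W := by
    refine ⟨hW.1, fun t ht t' ht' hne => ?_⟩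
    exact (Real.rpow_le_rpow_of_exponent_le hT1 hϑ.le).trans (hW.2 t ht t' ht' hne)
  have hTwe : 0 < T ^ (w + ε) := Real.rpow_pos_of_pos hT0 _
  -- one power
  have hpow : ∀ k : ℕ, 1 ≤ k → k ≤ K → T ^ (39 / 50 : ℝ) ≤ (N : ℝ) ^ k → (N : ℝ) ^ k ≤ T ^ β →
      (W.card : ℝ) ≤ (2 * C₂ + 4 * C₃) * T ^ (w + ε) := by
    intro k hk1 hkK hk2 hk3
    refine CZ3_pow h3 h6 T ((N : ℝ) ^ k) σ w β ε C₂ C₃ W.card hT1 hσ1 hσ2 hw hβ hk2 hk3 hC₂ hC₃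
      ?_ ?_
    · exact hM' T hT2 σ N k hN1' hNT hk1 hkK a
        (hco κ₂ ((min_le_right _ _).trans (min_le_left _ _))) W hW0 hlarge
    · intro hk4
      refine hL' T hT3 σ N k hN1' ?_ hk1 hkK a
        (hco κ₃ ((min_le_right _ _).trans (min_le_right _ _))) W hW0 hlarge
      have e1 : (2 : ℝ) ^ k ≤ T ^ (1 / 13 : ℝ) := by
        have e2 : (2 : ℝ) ^ k ≤ (2 : ℝ) ^ K := pow_le_pow_right₀ (by norm_num) hkK
        have e3 : ((2 : ℝ) ^ K) = ((2 : ℝ) ^ (13 * K)) ^ (1 / 13 : ℝ) := by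
          rw [mul_comm, pow_mul, ← Real.rpow_natCast (((2 : ℝ) ^ K)) 13, ← Real.rpow_mul
            (by positivity)]
          norm_num
        rw [e3] at e2
        exact e2.trans (Real.rpow_le_rpow (by positivity) hT5 (by norm_num))
      rw [mul_pow]
      calc (2 : ℝ) ^ k * (N : ℝ) ^ k ≤ T ^ (1 / 13 : ℝ) * T ^ (12 / 13 : ℝ) :=
            mul_le_mul e1 hk4 (by positivity) (by positivity)
        _ = T := by
            rw [← Real.rpow_add hT0]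
            norm_num
  rw [hwA]
  rcases le_total (N : ℝ) (T ^ (β / 3)) with hc | hc
  · obtain ⟨k, hk3, hkd, hk1, hk2⟩ := hP T hT4 N 3 β (by norm_num) (by linarith) (by linarith)
      hN1 (by push_cast; exact hc)
    have h8 := hpow k (by omega) (hKle k hkd) ((Real.rpow_le_rpow_of_exponent_le hT1 (by
      push_cast
      linarith)).trans hk1) hk2
    have h9 : (CZ + (2 * C₂ + 4 * C₃)) * T ^ (w + ε) =
        CZ * T ^ (w + ε) + (2 * C₂ + 4 * C₃) * T ^ (w + ε) := by ring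
    have h10 : 0 ≤ CZ * T ^ (w + ε) := by positivity
    linarith
  · rcases le_total (N : ℝ) (T ^ (39 / 100 : ℝ)) with hd | hd
    · have hβ3 : 7 / (6 * (1 + 3 * σ)) = β / 3 := by
        rw [hβ]
        field_simp
        ring
      have h8 := hZ'' T hTZ σ hσ1 hσ2 W hW N a (by rw [hβ3]; exact hc) hd
        (hco κ₁ (min_le_left _ _)) hlarge
      rw [← hw] at h8
      have h9 : (CZ + (2 * C₂ + 4 * C₃)) * T ^ (w + ε) =
          CZ * T ^ (w + ε) + (2 * C₂ + 4 * C₃) * T ^ (w + ε) := by ring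
      have h10 : 0 ≤ (2 * C₂ + 4 * C₃) * T ^ (w + ε) := by positivity
      linarith
    · have e1 : T ^ (39 / 50 : ℝ) ≤ (N : ℝ) ^ 2 := by
        calc T ^ (39 / 50 : ℝ) = (T ^ (39 / 100 : ℝ)) ^ 2 := by
              rw [← Real.rpow_natCast, ← Real.rpow_mul hT0.le]
              norm_num
          _ ≤ (N : ℝ) ^ 2 := pow_le_pow_left₀ (by positivity) hd 2
      have e2 : (N : ℝ) ^ 2 ≤ T ^ β := by
        calc (N : ℝ) ^ 2 ≤ (T ^ (1 / 2 : ℝ)) ^ 2 := pow_le_pow_left₀ hNpos.le hN2 2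
          _ = T ^ (1 : ℝ) := by
              rw [← Real.rpow_natCast, ← Real.rpow_mul hT0.le]
              norm_num
          _ ≤ T ^ β := Real.rpow_le_rpow_of_exponent_le hT1 (by linarith)
      have h8 := hpow 2 (by norm_num) hK2 e1 e2
      have h9 : (CZ + (2 * C₂ + 4 * C₃)) * T ^ (w + ε) =
          CZ * T ^ (w + ε) + (2 * C₂ + 4 * C₃) * T ^ (w + ε) := by ring
      have h10 : 0 ≤ CZ * T ^ (w + ε) := by positivity
      linarith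

end Pool.Agent.NF
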