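import Pool.Agent.helper86.NF.SpecC
import Pool.Agent.helper78.ZD.CMA

/-! nf: NVW: the large values theorem of lw: for class one. -/

set_option autoImplicit false

open Complex MeasureTheory

namespace Pool.Agent.NF

open Pool.Agent.helper84.DM Pool.Agent.helper78.ED Pool.Agent.DH Pool.Agent.ZD

theorem NVW_alg (A X M Nσ P s : ℝ) (j : ℕ) (hX : 0 < X) (hM : 0 < M) (hN : Nσ ^ j = M ^ s) :
    A ^ j * P / (Nσ / X) ^ j = (A * X) ^ j * (P * M ^ (-s)) := by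
  have hXp : X ^ j ≠ 0 := (pow_pos hX _).ne'
  have hMp : M ^ s ≠ 0 := (Real.rpow_pos_of_pos hM _).ne'
  rw [div_pow, hN, Real.rpow_neg hM.le, mul_pow]
  field_simp

theorem NVW (h : LWK_stmt) : NVW_stmt := by
  intro ε K hε hK
  have hKr : (1 : ℝ) ≤ K := by exact_mod_cast hK
  obtain ⟨κ, hκ⟩ : ∃ κ : ℝ, κ = min 1 (ε / (16 * K)) := ⟨_, rfl⟩
  have hκ0 : 0 < κ := by rw [hκ]; exact lt_min one_pos (by positivity)
  have hκ1 : κ ≤ 1 := by rw [hκ]; exact min_le_left _ _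
  have hκ2 : κ ≤ ε / (16 * K) := by rw [hκ]; exact min_le_right _ _
  have hκK : κ * (16 * K) ≤ ε := by
    rwa [le_div_iff₀ (by positivity)] at hκ2
  refine ⟨κ, hκ0, hκ1, ?_⟩
  intro C₁ hC₁
  have hmv : ∀ k : ℕ, ∃ C : ℝ, 0 < C ∧ (1 ≤ k →
      ∀ T : ℝ, 1 ≤ T → ∀ W : Finset ℝ, Sep 0 T W → ∀ (N : ℕ) (a : ℕ → ℂ) (A V : ℝ), 1 ≤ N →
      (2 * (N : ℝ)) ^ k ≤ T → 0 < A → 0 < V → (∀ n ∈ Finset.Ioc N (2 * N), ‖a n‖ ≤ A) →
      (∀ t ∈ W, V ≤ ‖DP N a t‖) →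
      (W.card : ℝ) ≤ C * T ^ (ε / 4) * (A ^ (2 * k) * ((N : ℝ) ^ k) ^ 2 / V ^ (2 * k) +
        A ^ (4 * k) * (T ^ (1 / 2 : ℝ) * ((N : ℝ) ^ k) ^ 3 +
          T ^ (6 / 7 : ℝ) * ((N : ℝ) ^ k) ^ (18 / 7 : ℝ) + T * ((N : ℝ) ^ k) ^ 2) /
            V ^ (4 * k))) := by
    intro k
    rcases Nat.eq_zero_or_pos k with hk | hk
    · exact ⟨1, one_pos, fun h => absurd h (by omega)⟩
    · obtain ⟨C, hC, h⟩ := h (ε / 4) k (by positivity) hk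
      exact ⟨C, hC, fun _ => h⟩
  choose c hc0 hc using hmv
  obtain ⟨CM, hCM⟩ : ∃ CM : ℝ, CM = 1 + ∑ k ∈ Finset.Icc 1 K, c k := ⟨_, rfl⟩
  have hCM0 : 0 < CM := by
    rw [hCM]
    have : 0 ≤ ∑ k ∈ Finset.Icc 1 K, c k := Finset.sum_nonneg fun i _ => (hc0 i).le
    linarith
  have hcle : ∀ k ∈ Finset.Icc 1 K, c k ≤ CM := by
    intro k hk
    rw [hCM]
    have : c k ≤ ∑ k ∈ Finset.Icc 1 K, c k :=
      Finset.single_le_sum (f := c) (fun i _ => (hc0 i).le) hk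
    linarith
  obtain ⟨B, hB⟩ : ∃ B : ℝ, B = 4 * C₁ ^ 2 := ⟨_, rfl⟩
  have hB0 : 0 ≤ B := by rw [hB]; positivity
  obtain ⟨E, hE⟩ : ∃ E : ℝ, E = (1 + B * (8 * (K + 1) / (ε / 2))) ^ (2 * K) := ⟨_, rfl⟩
  have hE0 : 0 < E := by
    rw [hE]
    have : 0 ≤ B * (8 * ((K : ℝ) + 1) / (ε / 2)) := by positivity
    positivity
  obtain ⟨E', hE'⟩ : ∃ E' : ℝ, E' = (1 + B * (8 * (((2 * K : ℕ) : ℝ) + 1) / (ε / 2))) ^
    (2 * (2 * K)) := ⟨_, rfl⟩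
  have hE'0 : 0 < E' := by
    rw [hE']
    have : 0 ≤ B * (8 * (((2 * K : ℕ) : ℝ) + 1) / (ε / 2)) := by positivity
    positivity
  refine ⟨CM * (E + E'), 3, by positivity, ?_⟩
  intro T hT3 σ N k hN1 hNT hk1 hkK a ha W hW hV
  have hT0 : 0 < T := by linarith
  have hT1 : 1 ≤ T := by linarith
  have hlog : 0 < Real.log T := Real.log_pos (by linarith)
  have hNpos : 0 < (N : ℝ) := by exact_mod_cast hN1
  obtain ⟨M, hM⟩ : ∃ M : ℝ, M = (N : ℝ) ^ k := ⟨_, rfl⟩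
  have hM0 : 0 < M := by rw [hM]; positivity
  have hX : 0 < 4 * C₁ * Real.log T := by positivity
  have hVp : 0 < (N : ℝ) ^ σ / (4 * C₁ * Real.log T) := by positivity
  have hAp : 0 < C₁ * T ^ κ := by positivity
  have hmain := hc k hk1 T hT1 W hW N a (C₁ * T ^ κ) ((N : ℝ) ^ σ / (4 * C₁ * Real.log T))
    hN1 hNT hAp hVp ha hV
  rw [← hM] at hmain ⊢
  have hNσ : ∀ j : ℕ, ((N : ℝ) ^ σ) ^ (j * k) = M ^ ((j : ℝ) * σ) := by
    intro j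
    rw [hM, ← Real.rpow_natCast ((N : ℝ) ^ σ) (j * k), ← Real.rpow_mul hNpos.le,
      ← Real.rpow_natCast (N : ℝ) k, ← Real.rpow_mul hNpos.le]
    congr 1
    push_cast
    ring
  have hNσ2 : ((N : ℝ) ^ σ) ^ (2 * k) = M ^ (2 * σ) := by exact_mod_cast hNσ 2
  have hNσ4 : ((N : ℝ) ^ σ) ^ (4 * k) = M ^ (4 * σ) := by exact_mod_cast hNσ 4
  rw [NVW_alg _ _ M _ _ (2 * σ) (2 * k) hX hM0 hNσ2,
    NVW_alg _ _ M _ _ (4 * σ) (4 * k) hX hM0 hNσ4] at hmain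
  obtain ⟨P, hP⟩ : ∃ P : ℝ, P = M ^ (2 : ℕ) * M ^ (-(2 * σ)) := ⟨_, rfl⟩
  obtain ⟨Q, hQ⟩ : ∃ Q : ℝ, Q = (T ^ (1 / 2 : ℝ) * M ^ (3 : ℕ) + T ^ (6 / 7 : ℝ) *
    M ^ (18 / 7 : ℝ) + T * M ^ (2 : ℕ)) * M ^ (-(4 * σ)) := ⟨_, rfl⟩
  rw [← hP, ← hQ] at hmain ⊢
  have hP0 : 0 ≤ P := by rw [hP]; positivity
  have hQ0 : 0 ≤ Q := by rw [hQ]; positivity
  have hAX : C₁ * T ^ κ * (4 * C₁ * Real.log T) = (B * Real.log T) * T ^ κ := by
    rw [hB]; ring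
  rw [hAX, mul_pow (B * Real.log T) (T ^ κ) (2 * k),
    mul_pow (B * Real.log T) (T ^ κ) (4 * k)] at hmain
  have hlg := CMA_log (ε / 2) B K k (by positivity) hB0 hkK T hT1
  rw [← hE] at hlg
  have hlg' := CMA_log (ε / 2) B (2 * K) (2 * k) (by positivity) hB0 (by omega) T hT1
  rw [← hE'] at hlg'
  have hkK' : (k : ℝ) ≤ K := by exact_mod_cast hkK
  have hκk : κ * k ≤ ε / 16 := by
    have h1 : κ * k ≤ κ * K := mul_le_mul_of_nonneg_left hkK' hκ0.le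
    linarith
  have hTk : (T ^ κ) ^ (2 * k) ≤ T ^ (ε / 8) := by
    rw [← Real.rpow_natCast (T ^ κ) (2 * k), ← Real.rpow_mul hT0.le]
    apply Real.rpow_le_rpow_of_exponent_le hT1
    push_cast
    linarith
  have hTk' : (T ^ κ) ^ (4 * k) ≤ T ^ (ε / 4) := by
    rw [← Real.rpow_natCast (T ^ κ) (4 * k), ← Real.rpow_mul hT0.le]
    apply Real.rpow_le_rpow_of_exponent_le hT1
    push_cast
    linarith
  have h44 : 2 * (2 * k) = 4 * k := by ring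
  rw [h44] at hlg'
  have b1 : (B * Real.log T) ^ (2 * k) * (T ^ κ) ^ (2 * k) ≤
      E * T ^ (ε / 2 / 4) * T ^ (ε / 8) :=
    mul_le_mul hlg hTk (by positivity) (by positivity)
  have b2 : (B * Real.log T) ^ (4 * k) * (T ^ κ) ^ (4 * k) ≤
      E' * T ^ (ε / 2 / 4) * T ^ (ε / 4) :=
    mul_le_mul hlg' hTk' (by positivity) (by positivity)
  have b1' : E * T ^ (ε / 2 / 4) * T ^ (ε / 8) ≤ E * T ^ (3 * ε / 4) := by
    rw [mul_assoc, ← Real.rpow_add hT0]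
    exact mul_le_mul_of_nonneg_left
      (Real.rpow_le_rpow_of_exponent_le hT1 (by linarith)) hE0.le
  have b2' : E' * T ^ (ε / 2 / 4) * T ^ (ε / 4) ≤ E' * T ^ (3 * ε / 4) := by
    rw [mul_assoc, ← Real.rpow_add hT0]
    exact mul_le_mul_of_nonneg_left
      (Real.rpow_le_rpow_of_exponent_le hT1 (by linarith)) hE'0.le
  have hckM : c k ≤ CM := hcle k (Finset.mem_Icc.2 ⟨hk1, hkK⟩)
  have hTq : 0 < T ^ (ε / 4) := Real.rpow_pos_of_pos hT0 _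
  have hT3 : 0 < T ^ (3 * ε / 4) := Real.rpow_pos_of_pos hT0 _
  have c1 : (B * Real.log T) ^ (2 * k) * (T ^ κ) ^ (2 * k) * P +
      (B * Real.log T) ^ (4 * k) * (T ^ κ) ^ (4 * k) * Q ≤
      (E + E') * T ^ (3 * ε / 4) * (P + Q) := by
    have d1 := mul_le_mul_of_nonneg_right (b1.trans b1') hP0
    have d2 := mul_le_mul_of_nonneg_right (b2.trans b2') hQ0
    have d3 : 0 ≤ E' * T ^ (3 * ε / 4) * P := by positivity
    have d4 : 0 ≤ E * T ^ (3 * ε / 4) * Q := by positivity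
    have d5 : (E + E') * T ^ (3 * ε / 4) * (P + Q) = E * T ^ (3 * ε / 4) * P +
        E' * T ^ (3 * ε / 4) * Q + E' * T ^ (3 * ε / 4) * P + E * T ^ (3 * ε / 4) * Q := by
      ring
    linarith
  have c2 : T ^ (ε / 4) * T ^ (3 * ε / 4) = T ^ ε := by
    rw [← Real.rpow_add hT0]
    congr 1
    ring
  have hsum0 : 0 ≤ (B * Real.log T) ^ (2 * k) * (T ^ κ) ^ (2 * k) * P +
      (B * Real.log T) ^ (4 * k) * (T ^ κ) ^ (4 * k) * Q := by positivity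
  refine hmain.trans ?_
  calc c k * T ^ (ε / 4) * ((B * Real.log T) ^ (2 * k) * (T ^ κ) ^ (2 * k) * P +
      (B * Real.log T) ^ (4 * k) * (T ^ κ) ^ (4 * k) * Q)
      ≤ CM * T ^ (ε / 4) * ((E + E') * T ^ (3 * ε / 4) * (P + Q)) :=
        mul_le_mul (mul_le_mul_of_nonneg_right hckM hTq.le) c1 hsum0 (by positivity)
    _ = CM * (E + E') * (T ^ (ε / 4) * T ^ (3 * ε / 4)) * (P + Q) := by ring
    _ = CM * (E + E') * T ^ ε * (P + Q) := by rw [c2]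

end Pool.Agent.NF
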