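import Pool.Agent.helper4.NF.SpecA

/-! nf: RGM: the divisor argument. -/

set_option autoImplicit false

open Complex MeasureTheory

namespace Pool.Agent.NF

open Pool.Agent.helper84.DM Pool.Agent.helper78.ED Pool.Agent.DH Pool.Agent.ZD

theorem RGM_mem (M : ℕ) (m : ℤ) : m ∈ MM M ↔ |m| ≤ M ∧ m ≠ 0 := by
  unfold MM
  rw [Finset.mem_erase, Finset.mem_Icc, abs_le]
  tauto

theorem RGM_card (M : ℕ) : ((MM M).card : ℝ) = 2 * M := by
  unfold MM
  rw [Finset.card_erase_of_mem (by rw [Finset.mem_Icc]; omega), Int.card_Icc]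
  have : ((M : ℤ) + 1 - (-(M : ℤ))).toNat - 1 = 2 * M := by omega
  rw [this]
  push_cast
  ring

theorem RGM_L (M N : ℕ) (D : ℝ) (G : ℤ → ℝ) (hG : ∀ k, 0 ≤ G k)
    (hD : ∀ k : ℕ, 1 ≤ k → k ≤ 4 * M * N → d k ≤ D) :
    ∑ n ∈ Finset.Ioc N (4 * N), ∑ m ∈ MM M, G (m * n) ≤ D * ∑ v ∈ MM (4 * M * N), G v := by
  classical
  rw [← Finset.sum_product']
  have hmap : ∀ x ∈ Finset.Ioc N (4 * N) ×ˢ MM M, x.2 * (x.1 : ℤ) ∈ MM (4 * M * N) := by
    rintro ⟨n, m⟩ hx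
    rw [Finset.mem_product, Finset.mem_Ioc, RGM_mem] at hx
    obtain ⟨⟨h1, h2⟩, h3, h4⟩ := hx
    simp only at h1 h2 h3 h4 ⊢
    rw [RGM_mem]
    have hn : (n : ℤ) ≠ 0 := by
      have : n ≠ 0 := by omega
      exact_mod_cast this
    refine ⟨?_, mul_ne_zero h4 hn⟩
    rw [abs_mul, Nat.abs_cast]
    have h5 : (n : ℤ) ≤ 4 * N := by exact_mod_cast h2
    calc |m| * (n : ℤ) ≤ (M : ℤ) * (4 * N) := mul_le_mul h3 h5 (by positivity) (by positivity)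
      _ = ((4 * M * N : ℕ) : ℤ) := by push_cast; ring
  rw [← Finset.sum_fiberwise_of_maps_to hmap, Finset.mul_sum]
  refine Finset.sum_le_sum fun v hv => ?_
  rw [RGM_mem] at hv
  obtain ⟨hv1, hv2⟩ := hv
  have h1 : ∑ x ∈ (Finset.Ioc N (4 * N) ×ˢ MM M).filter (fun x => x.2 * (x.1 : ℤ) = v),
      G (x.2 * (x.1 : ℤ)) =
      (((Finset.Ioc N (4 * N) ×ˢ MM M).filter (fun x => x.2 * (x.1 : ℤ) = v)).card : ℝ) * G v := by
    rw [Finset.sum_congr rfl (fun x hx => by rw [(Finset.mem_filter.1 hx).2]), Finset.sum_const,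
      nsmul_eq_mul]
  rw [h1]
  refine mul_le_mul_of_nonneg_right ?_ (hG v)
  have h2 : 1 ≤ v.natAbs := Int.natAbs_pos.2 hv2
  have h3 : v.natAbs ≤ 4 * M * N := by
    have : (v.natAbs : ℤ) ≤ ((4 * M * N : ℕ) : ℤ) := by
      rw [Int.natCast_natAbs]
      exact hv1
    exact_mod_cast this
  refine le_trans ?_ (hD v.natAbs h2 h3)
  unfold d
  norm_cast
  refine Finset.card_le_card_of_injOn (fun x => x.1) ?_ ?_
  · rintro ⟨n, m⟩ hx
    simp only [Finset.coe_filter, Set.mem_ofPred_eq, Finset.mem_product] at hx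
    rw [Finset.mem_coe, Nat.mem_divisors]
    refine ⟨?_, by omega⟩
    rw [← hx.2, Int.natAbs_mul, Int.natAbs_natCast]
    exact Dvd.intro_left _ rfl
  · rintro ⟨n, m⟩ hx ⟨n', m'⟩ hx' he
    simp only [Finset.coe_filter, Set.mem_ofPred_eq, Finset.mem_product, Finset.mem_Ioc] at hx hx'
    simp only at he
    subst he
    have hn : (n : ℤ) ≠ 0 := by
      have : n ≠ 0 := by omega
      exact_mod_cast this
    have h4 : m * (n : ℤ) = m' * (n : ℤ) := by rw [hx.2, hx'.2]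
    rw [mul_right_cancel₀ hn h4]

theorem RGM : RGM_stmt := by
  classical
  intro M M₀ N D F hF hD
  by_cases hpos : 1 ≤ 4 * M * N + 4 * M₀ * N
  swap
  · have h0 : ∑ n ∈ Finset.Ioc N (4 * N), ∑ n' ∈ Finset.Ioc N (4 * N),
        ∑ m₁ ∈ MM M, ∑ m₂ ∈ MM M, ∑ m₃ ∈ MM M₀, F (m₁ * n' - m₂ * n) (m₃ * n') = 0 := by
      rcases Nat.eq_zero_or_pos N with hN | hN
      · subst hN
        simp
      · have hM : M = 0 := by
          by_contra hM
          have : 1 ≤ M * N := Nat.mul_pos (Nat.pos_of_ne_zero hM) hN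
          have h2 : 4 * M * N = 4 * (M * N) := by ring
          omega
        subst hM
        have : MM 0 = ∅ := by
          unfold MM
          simp
        simp [this]
    rw [h0]
    have : 0 ≤ ∑ s ∈ Finset.Icc (-(8 * (M : ℤ) * N)) (8 * M * N), ∑ k ∈ MM (4 * M₀ * N), F s k :=
      Finset.sum_nonneg fun s _ => Finset.sum_nonneg fun k _ => hF s k
    positivity
  have hD0 : 0 ≤ D := by
    have h1 := hD 1 le_rfl hpos
    unfold d at h1
    exact (Nat.cast_nonneg _).trans h1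
  obtain ⟨G, hG⟩ : ∃ G : ℤ → ℝ, G = fun k =>
      ∑ s ∈ Finset.Icc (-(8 * (M : ℤ) * N)) (8 * M * N), F s k := ⟨_, rfl⟩
  have hG0 : ∀ k, 0 ≤ G k := by
    intro k
    rw [hG]
    exact Finset.sum_nonneg fun s _ => hF s k
  -- the inner sums
  have hin : ∀ n' ∈ Finset.Ioc N (4 * N), ∀ m₁ ∈ MM M, ∀ m₃ : ℤ,
      ∑ n ∈ Finset.Ioc N (4 * N), ∑ m₂ ∈ MM M, F (m₁ * n' - m₂ * n) (m₃ * n') ≤
        D * G (m₃ * n') := by
    intro n' hn' m₁ hm₁ m₃
    rw [Finset.mem_Ioc] at hn'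
    rw [RGM_mem] at hm₁
    refine (RGM_L M N D (fun v => F (m₁ * n' - v) (m₃ * n')) (fun v => hF _ _)
      (fun k h1 h2 => hD k h1 (by omega))).trans ?_
    refine mul_le_mul_of_nonneg_left ?_ hD0
    rw [hG]
    have hinj : ∀ v ∈ MM (4 * M * N), ∀ w ∈ MM (4 * M * N),
        m₁ * (n' : ℤ) - v = m₁ * n' - w → v = w := by
      intro v _ w _ h
      linarith
    rw [← Finset.sum_image (f := fun s => F s (m₃ * n')) (g := fun v => m₁ * (n' : ℤ) - v) hinj]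
    refine Finset.sum_le_sum_of_subset_of_nonneg ?_ (fun s _ _ => hF s _)
    intro s hs
    rw [Finset.mem_image] at hs
    obtain ⟨v, hv, rfl⟩ := hs
    rw [RGM_mem] at hv
    have h1 : |m₁ * (n' : ℤ)| ≤ 4 * M * N := by
      rw [abs_mul, Nat.abs_cast]
      have h5 : (n' : ℤ) ≤ 4 * N := by exact_mod_cast hn'.2
      calc |m₁| * (n' : ℤ) ≤ (M : ℤ) * (4 * N) :=
            mul_le_mul hm₁.1 h5 (by positivity) (by positivity)
        _ = 4 * M * N := by ring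
    have h2 : |v| ≤ 4 * M * N := by
      have := hv.1
      push_cast at this
      exact this
    rw [abs_le] at h1 h2
    rw [Finset.mem_Icc]
    constructor <;> linarith [h1.1, h1.2, h2.1, h2.2]
  have hre : ∑ n ∈ Finset.Ioc N (4 * N), ∑ n' ∈ Finset.Ioc N (4 * N),
      ∑ m₁ ∈ MM M, ∑ m₂ ∈ MM M, ∑ m₃ ∈ MM M₀, F (m₁ * n' - m₂ * n) (m₃ * n') =
      ∑ n' ∈ Finset.Ioc N (4 * N), ∑ m₁ ∈ MM M, ∑ m₃ ∈ MM M₀,
        ∑ n ∈ Finset.Ioc N (4 * N), ∑ m₂ ∈ MM M, F (m₁ * n' - m₂ * n) (m₃ * n') := by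
    rw [Finset.sum_comm]
    refine Finset.sum_congr rfl fun n' _ => ?_
    rw [Finset.sum_comm]
    refine Finset.sum_congr rfl fun m₁ _ => ?_
    rw [Finset.sum_congr rfl (fun n _ => Finset.sum_comm), Finset.sum_comm]
  have hS : 0 ≤ ∑ n' ∈ Finset.Ioc N (4 * N), ∑ m₃ ∈ MM M₀, G (m₃ * n') :=
    Finset.sum_nonneg fun n' _ => Finset.sum_nonneg fun m₃ _ => hG0 _
  rw [hre]
  calc ∑ n' ∈ Finset.Ioc N (4 * N), ∑ m₁ ∈ MM M, ∑ m₃ ∈ MM M₀,
        ∑ n ∈ Finset.Ioc N (4 * N), ∑ m₂ ∈ MM M, F (m₁ * n' - m₂ * n) (m₃ * n')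
      ≤ ∑ n' ∈ Finset.Ioc N (4 * N), ∑ m₁ ∈ MM M, ∑ m₃ ∈ MM M₀, D * G (m₃ * n') :=
        Finset.sum_le_sum fun n' hn' => Finset.sum_le_sum fun m₁ hm₁ =>
          Finset.sum_le_sum fun m₃ _ => hin n' hn' m₁ hm₁ m₃
    _ = 2 * M * D * ∑ n' ∈ Finset.Ioc N (4 * N), ∑ m₃ ∈ MM M₀, G (m₃ * n') := by
        rw [Finset.mul_sum]
        refine Finset.sum_congr rfl fun n' _ => ?_
        rw [Finset.sum_const, nsmul_eq_mul, RGM_card, ← Finset.mul_sum]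
        ring
    _ ≤ 2 * M * D * (D * ∑ v ∈ MM (4 * M₀ * N), G v) :=
        mul_le_mul_of_nonneg_left (RGM_L M₀ N D G hG0 (fun k h1 h2 => hD k h1 (by omega)))
          (by positivity)
    _ = 2 * M * D ^ 2 * ∑ s ∈ Finset.Icc (-(8 * (M : ℤ) * N)) (8 * M * N),
          ∑ k ∈ MM (4 * M₀ * N), F s k := by
        rw [Finset.sum_comm, hG]
        ring

end Pool.Agent.NF
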